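import Pool.Agent.helper48.CG.Spec

/-!
# Module MRG of project cg (MP_a87880_co): the upper bound for merges of two sequences.
-/

set_option autoImplicit false

namespace Pool.Agent.helper48.CG

open Equiv Finset Function Pool.Agent.helper48.PP

theorem MRG : MRG_stmt := by
  intro s s' c c' hc hc' h1 h2 h3 h1' h2' h3' n
  have ha1 := one_le_rg hc h1 h3
  have hb1 := one_le_rg hc' h1' h3'
  have ha0 : 0 ≤ rg s := by linarith
  have hb0 : 0 ≤ rg s' := by linarith
  have e1 : (rg s + rg s') ^ (2 * n) =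
      (∑ m ∈ Finset.range (n + 1), rg s ^ m * rg s' ^ (n - m) * (n.choose m : ℝ)) ^ 2 := by
    rw [mul_comm 2 n, pow_mul, add_pow]
  rw [e1]
  refine le_trans ?_ (sum_sq_le _ _ fun m _ => by positivity)
  refine Finset.sum_le_sum fun m _ => ?_
  have hm := le_rg_pow hc h1 h2 h3 m
  have hm' := le_rg_pow hc' h1' h2' h3' (n - m)
  have hs0 : 0 ≤ s' (n - m) := zero_le_one.trans (h1' _)
  have hprod : s m * s' (n - m) ≤ rg s ^ (2 * m) * rg s' ^ (2 * (n - m)) :=
    mul_le_mul hm hm' hs0 (by positivity)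
  calc (n.choose m : ℝ) * n.choose m * (s m * s' (n - m)) ≤
        (n.choose m : ℝ) * n.choose m * (rg s ^ (2 * m) * rg s' ^ (2 * (n - m))) := by
        gcongr
    _ = _ := by ring

end Pool.Agent.helper48.CG
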